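import Mathlib
import Pool.Agent.Q90.ArensDefs
import Pool.Agent.Q90.ArensOpen2

/-!
# Open multiplication does not pass to the bidual

The Arens products are defined in `Pool.Agent.Q90.ArensDefs`; `FirstOpen A` says that `(A**, □)`
has open multiplication, `SecondOpen A` that `(A**, ◇)` has open multiplication.
-/

set_option autoImplicit false

open Q90.Arens

namespace Pool.Agent.Results.MP_5068ad_an.OpenFails

/-- **Openness of the multiplication does not pass to the bidual, for either Arens product.**
There is a complex Banach algebra `A` with open multiplication such that neither `(A**, □)` nor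
`(A**, ◇)` has open multiplication. -/
theorem result : ∃ (A : Type) (_ : NonUnitalNormedRing A) (_ : NormedSpace ℂ A)
    (_ : IsScalarTower ℂ A A) (_ : SMulCommClass ℂ A A),
    CompleteSpace A ∧ OpenMul (fun a b : A => a * b) ∧ ¬ FirstOpen A ∧ ¬ SecondOpen A :=
  ⟨Ex1.Alg, inferInstance, inferInstance, inferInstance, inferInstance, inferInstance,
      Ex1.openMul_alg, Ex1.not_openMul_first, Ex1.not_openMul_second⟩

end Pool.Agent.Results.MP_5068ad_an.OpenFails
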