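import Mathlib
import Pool.Agent.Q90.ArensDefs
import Pool.Agent.Q90.ArensWeak2

/-!
# Weakly open multiplication does not pass to the bidual

The Arens products are defined in `Pool.Agent.Q90.ArensDefs`; `FirstWeaklyOpen A` says that
`(A**, □)` has weakly open multiplication, `SecondWeaklyOpen A` that `(A**, ◇)` has weakly open
multiplication.
-/

set_option autoImplicit false

open Q90.Arens

namespace Pool.Agent.Results.MP_5068ad_an.WeaklyOpenFails

/-- **Weak openness of the multiplication does not pass to the bidual, for either Arens product.**
There is a complex Banach algebra `A` with weakly open multiplication such that neither `(A**, □)`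
nor `(A**, ◇)` has weakly open multiplication. -/
theorem result : ∃ (A : Type) (_ : NonUnitalNormedRing A) (_ : NormedSpace ℂ A)
    (_ : IsScalarTower ℂ A A) (_ : SMulCommClass ℂ A A),
    CompleteSpace A ∧ WeaklyOpenMul (fun a b : A => a * b) ∧
      ¬ FirstWeaklyOpen A ∧ ¬ SecondWeaklyOpen A :=
  ⟨Ex2.A L2, inferInstance, inferInstance, inferInstance, inferInstance, inferInstance,
      Ex2.weaklyOpenMul_A, Ex2.not_weaklyOpenMul_first, Ex2.not_weaklyOpenMul_second⟩

end Pool.Agent.Results.MP_5068ad_an.WeaklyOpenFails
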